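import Pool.Agent.H630.ME.Law
import Pool.Agent.H121.ME.Iface

/-! The statement `S_law` of project ME. -/

namespace Pool.Agent.H630.ME

theorem s_law : Pool.Agent.H121.ME.S_law := fun ψ h => main ψ h

end Pool.Agent.H630.ME
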