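import Mathlib

/-!
# ME-LAW: a symmetric law with bounded density and a prescribed thin tail
-/

open MeasureTheory Set

namespace Pool.Agent.H630.ME

noncomputable section

/-- A positive, nonincreasing sequence below `1` and below `ψ`. -/
def tau (ψ : ℕ → ℝ) (n : ℕ) : ℝ :=
  (Finset.range (n + 1)).inf' (Finset.nonempty_range_add_one) (fun k => min (ψ k) 1)

lemma tau_pos {ψ : ℕ → ℝ} (h : ∀ n, 0 < ψ n) (n : ℕ) : 0 < tau ψ n := by
  unfold tau
  rw [Finset.lt_inf'_iff]
  intro k _
  exact lt_min (h k) one_pos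

lemma tau_le_one (ψ : ℕ → ℝ) (n : ℕ) : tau ψ n ≤ 1 := by
  unfold tau
  exact (Finset.inf'_le (fun k => min (ψ k) 1) (Finset.mem_range.2 (Nat.succ_pos n))).trans
    (min_le_right _ _)

lemma tau_le {ψ : ℕ → ℝ} {n m : ℕ} (hnm : n ≤ m) : tau ψ m ≤ ψ n := by
  unfold tau
  exact (Finset.inf'_le (fun k => min (ψ k) 1) (Finset.mem_range.2 (Nat.lt_succ_of_le hnm))).trans
    (min_le_left _ _)

/-- The density in the outer region. -/
def dens (ψ : ℕ → ℝ) (v : ℝ) : ENNReal :=
  if 1 / 2 < |v| ∧ |v| < 1 then ENNReal.ofReal (tau ψ ⌊1 / (1 - |v|)⌋₊) else 0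

lemma dens_meas (ψ : ℕ → ℝ) : Measurable (dens ψ) := by
  unfold dens
  refine Measurable.ite ?_ ?_ measurable_const
  · exact (measurableSet_lt measurable_const continuous_abs.measurable).inter
      (measurableSet_lt continuous_abs.measurable measurable_const)
  · refine ENNReal.measurable_ofReal.comp ?_
    have h1 : Measurable (fun v : ℝ => ⌊1 / (1 - |v|)⌋₊) :=
      Nat.measurable_floor.comp
        (measurable_const.div (measurable_const.sub continuous_abs.measurable))
    exact (measurable_from_nat (f := tau ψ)).comp h1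

lemma dens_neg (ψ : ℕ → ℝ) (v : ℝ) : dens ψ (-v) = dens ψ v := by
  unfold dens
  rw [abs_neg]

/-- outer region -/
def Out : Set ℝ := {v | 1 / 2 < |v| ∧ |v| < 1}

lemma out_meas : MeasurableSet Out := by
  have h : Out = {v : ℝ | 1 / 2 < |v|} ∩ {v : ℝ | |v| < 1} := rfl
  rw [h]
  exact (measurableSet_lt measurable_const continuous_abs.measurable).inter
    (measurableSet_lt continuous_abs.measurable measurable_const)

lemma dens_le (ψ : ℕ → ℝ) (v : ℝ) : dens ψ v ≤ Out.indicator (fun _ => 1) v := by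
  unfold dens
  by_cases h : 1 / 2 < |v| ∧ |v| < 1
  · rw [if_pos h, indicator_of_mem (show v ∈ Out from h)]
    calc ENNReal.ofReal _ ≤ ENNReal.ofReal 1 := ENNReal.ofReal_le_ofReal (tau_le_one _ _)
      _ = 1 := ENNReal.ofReal_one
  · rw [if_neg h]; exact bot_le

/-- The outer part. -/
def nu (ψ : ℕ → ℝ) : Measure ℝ := volume.withDensity (dens ψ)

lemma nu_le (ψ : ℕ → ℝ) {A : Set ℝ} (hA : MeasurableSet A) : nu ψ A ≤ volume (A ∩ Out) := by
  unfold nu
  rw [withDensity_apply _ hA]
  calc ∫⁻ a in A, dens ψ a ≤ ∫⁻ a in A, Out.indicator (fun _ => 1) a :=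
        lintegral_mono (fun v => dens_le ψ v)
    _ = volume (A ∩ Out) := by
        rw [lintegral_indicator out_meas]
        rw [lintegral_one, Measure.restrict_apply MeasurableSet.univ, univ_inter]
        · rw [Measure.restrict_apply out_meas, inter_comm]

lemma out_sub : Out ⊆ Ioo (-1 : ℝ) (-(1/2)) ∪ Ioo (1/2 : ℝ) 1 := by
  intro v hv
  obtain ⟨h1, h2⟩ := hv
  rw [abs_lt] at h2
  rcases lt_abs.1 h1 with h | h
  · right; exact ⟨h, h2.2⟩
  · left; exact ⟨h2.1, by linarith⟩

lemma vol_out : volume Out ≤ 1 := by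
  calc volume Out ≤ volume (Ioo (-1 : ℝ) (-(1/2)) ∪ Ioo (1/2 : ℝ) 1) := measure_mono out_sub
    _ ≤ volume (Ioo (-1 : ℝ) (-(1/2))) + volume (Ioo (1/2 : ℝ) 1) := measure_union_le _ _
    _ = 1 := by
      rw [Real.volume_Ioo, Real.volume_Ioo, ← ENNReal.ofReal_add (by norm_num) (by norm_num)]
      norm_num

lemma nu_univ_le (ψ : ℕ → ℝ) : nu ψ univ ≤ 1 :=
  (nu_le ψ MeasurableSet.univ).trans (by rw [univ_inter]; exact vol_out)

/-- inner region -/
def Inn : Set ℝ := Icc (-(1/2) : ℝ) (1/2)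

lemma vol_inn : volume Inn = 1 := by
  unfold Inn; rw [Real.volume_Icc]; norm_num

lemma inn_out : Disjoint Inn Out := by
  rw [Set.disjoint_left]
  intro v hv ho
  have : |v| ≤ 1/2 := abs_le.2 ⟨hv.1, hv.2⟩
  exact absurd ho.1 (not_lt.2 this)

/-- The law. -/
def law (ψ : ℕ → ℝ) : Measure ℝ := (1 - nu ψ univ) • volume.restrict Inn + nu ψ

lemma law_apply (ψ : ℕ → ℝ) {A : Set ℝ} (hA : MeasurableSet A) :
    law ψ A = (1 - nu ψ univ) * volume (A ∩ Inn) + nu ψ A := by
  unfold law
  rw [Measure.add_apply, Measure.smul_apply, Measure.restrict_apply hA, smul_eq_mul]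

lemma nu_neg (ψ : ℕ → ℝ) {A : Set ℝ} (hA : MeasurableSet A) :
    nu ψ ((fun v => -v) ⁻¹' A) = nu ψ A := by
  have hm : MeasurableSet ((fun v : ℝ => -v) ⁻¹' A) := measurable_neg hA
  unfold nu
  rw [withDensity_apply _ hm, withDensity_apply _ hA]
  have hp : MeasurePreserving (fun v : ℝ => -v) volume volume :=
    Measure.measurePreserving_neg volume
  have h := hp.setLIntegral_comp_preimage hA (dens_meas ψ)
  rw [← h]
  refine lintegral_congr (fun v => ?_)
  rw [dens_neg]

theorem main (ψ : ℕ → ℝ) (hψ : ∀ n, 0 < ψ n) : ∃ μ : Measure ℝ, IsProbabilityMeasure μ ∧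
    (∀ᵐ v ∂μ, |v| ≤ 1) ∧
    (∀ A : Set ℝ, MeasurableSet A → μ A ≤ volume A) ∧
    (∀ A : Set ℝ, MeasurableSet A → μ ((fun v => -v) ⁻¹' A) = μ A) ∧
    (∀ δ : ℝ, 0 < δ → 0 < μ (Set.Ioi (1 - δ))) ∧
    ∀ n : ℕ, 2 ≤ n → μ (Set.Ioi (1 - 1 / n)) ≤ ENNReal.ofReal (ψ n) := by
  refine ⟨law ψ, ⟨?_⟩, ?_, ?_, ?_, ?_, ?_⟩
  · rw [law_apply ψ MeasurableSet.univ, univ_inter, vol_inn, mul_one]
    exact tsub_add_cancel_of_le (nu_univ_le ψ)
  · -- support
    rw [ae_iff]
    have hs : MeasurableSet {v : ℝ | ¬ |v| ≤ 1} :=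
      (measurableSet_le continuous_abs.measurable measurable_const).compl
    rw [law_apply ψ hs]
    have h1 : {v : ℝ | ¬ |v| ≤ 1} ∩ Inn = ∅ := by
      ext v
      simp only [mem_inter_iff, mem_ofPred_eq, mem_empty_iff_false, iff_false, not_and]
      intro h hv
      apply h
      exact (abs_le.2 ⟨hv.1, hv.2⟩).trans (by norm_num)
    have h2 : {v : ℝ | ¬ |v| ≤ 1} ∩ Out = ∅ := by
      ext v
      simp only [mem_inter_iff, mem_ofPred_eq, mem_empty_iff_false, iff_false, not_and]
      intro h hv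
      exact h hv.2.le
    rw [h1, measure_empty, mul_zero, zero_add]
    exact le_antisymm ((nu_le ψ hs).trans (by rw [h2, measure_empty])) bot_le
  · intro A hA
    rw [law_apply ψ hA]
    calc (1 - nu ψ univ) * volume (A ∩ Inn) + nu ψ A
        ≤ 1 * volume (A ∩ Inn) + volume (A ∩ Out) :=
          add_le_add (mul_le_mul_left tsub_le_self _) (nu_le ψ hA)
      _ = volume ((A ∩ Inn) ∪ (A ∩ Out)) := by
          rw [one_mul, measure_union _ (hA.inter out_meas)]
          exact inn_out.mono inter_subset_right inter_subset_right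
      _ ≤ volume A := measure_mono (union_subset inter_subset_left inter_subset_left)
  · intro A hA
    have hm : MeasurableSet ((fun v : ℝ => -v) ⁻¹' A) := measurable_neg hA
    rw [law_apply ψ hA, law_apply ψ hm, nu_neg ψ hA]
    congr 2
    have hp : MeasurePreserving (fun v : ℝ => -v) volume volume :=
      Measure.measurePreserving_neg volume
    have h3 : (fun v : ℝ => -v) ⁻¹' A ∩ Inn = (fun v : ℝ => -v) ⁻¹' (A ∩ Inn) := by
      ext v
      simp only [mem_inter_iff, mem_preimage, Inn, mem_Icc]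
      constructor
      · rintro ⟨h, h1, h2⟩; exact ⟨h, by linarith, by linarith⟩
      · rintro ⟨h, h1, h2⟩; exact ⟨h, by linarith, by linarith⟩
    have hI : MeasurableSet Inn := measurableSet_Icc
    rw [h3, hp.measure_preimage (hA.inter hI).nullMeasurableSet]
  · intro δ hδ
    have hlt : max (1 - δ) (1/2) < 1 := max_lt (by linarith) (by norm_num)
    have hsub : Ioo (max (1 - δ) (1/2)) 1 ⊆ Ioi (1 - δ) := fun v hv =>
      lt_of_le_of_lt (le_max_left _ _) hv.1
    refine lt_of_lt_of_le ?_ (measure_mono hsub)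
    have hm : MeasurableSet (Ioo (max (1 - δ) (1/2)) (1 : ℝ)) := measurableSet_Ioo
    rw [law_apply ψ hm]
    refine lt_of_lt_of_le ?_ le_add_self
    unfold nu
    rw [withDensity_apply _ hm]
    rw [setLIntegral_pos_iff (dens_meas ψ)]
    have hss : Ioo (max (1 - δ) (1/2)) (1 : ℝ) ⊆ Function.support (dens ψ) := by
      intro v hv
      have hv1 : 1 / 2 < v := lt_of_le_of_lt (le_max_right _ _) hv.1
      have hva : |v| = v := abs_of_pos (by linarith)
      have : dens ψ v = ENNReal.ofReal (tau ψ ⌊1 / (1 - |v|)⌋₊) := by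
        unfold dens
        rw [if_pos]
        rw [hva]; exact ⟨hv1, hv.2⟩
      rw [Function.mem_support, this]
      simpa using tau_pos hψ _
    rw [inter_eq_right.2 hss, Real.volume_Ioo]
    simpa using hlt
  · intro n hn
    have hn0 : (0:ℝ) < n := by positivity
    have hn2 : (2:ℝ) ≤ n := by exact_mod_cast hn
    have hinv : 1 / (n:ℝ) ≤ 1/2 := by
      apply one_div_le_one_div_of_le (by norm_num) hn2
    rw [law_apply ψ measurableSet_Ioi]
    have h1 : Ioi (1 - 1 / (n:ℝ)) ∩ Inn = ∅ := by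
      ext v
      simp only [mem_inter_iff, mem_Ioi, Inn, mem_Icc, mem_empty_iff_false, iff_false, not_and]
      intro h _ h2
      linarith
    rw [h1, measure_empty, mul_zero, zero_add]
    unfold nu
    rw [withDensity_apply _ measurableSet_Ioi]
    calc ∫⁻ a in Ioi (1 - 1 / (n:ℝ)), dens ψ a
        ≤ ∫⁻ a in Ioi (1 - 1 / (n:ℝ)), (Ioo (1/2:ℝ) 1).indicator (fun _ => ENNReal.ofReal (ψ n)) a := by
          refine setLIntegral_mono (by measurability) (fun v hv => ?_)
          have hv' : 1 - 1 / (n:ℝ) < v := hv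
          have hv1 : 1 / 2 < v := by linarith
          have hva : |v| = v := abs_of_pos (by linarith)
          unfold dens
          split_ifs with hc
          · rw [hva] at hc
            rw [indicator_of_mem (show v ∈ Ioo (1/2:ℝ) 1 from hc)]
            apply ENNReal.ofReal_le_ofReal
            apply tau_le
            apply Nat.le_floor
            rw [hva, le_div_iff₀ (by linarith [hc.2])]
            have : (n:ℝ) * (1 - v) ≤ n * (1 / n) := mul_le_mul_of_nonneg_left (by linarith) hn0.le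
            rwa [mul_one_div_cancel hn0.ne'] at this
          · exact bot_le
      _ ≤ ∫⁻ a, (Ioo (1/2:ℝ) 1).indicator (fun _ => ENNReal.ofReal (ψ n)) a :=
          setLIntegral_le_lintegral _ _
      _ = ENNReal.ofReal (ψ n) * volume (Ioo (1/2:ℝ) 1) := by
          rw [lintegral_indicator_const measurableSet_Ioo]
      _ ≤ ENNReal.ofReal (ψ n) * 1 := by
          gcongr
          rw [Real.volume_Ioo]
          rw [ENNReal.ofReal_le_one]; norm_num
      _ = ENNReal.ofReal (ψ n) := mul_one _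

end

end Pool.Agent.H630.ME
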